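import Pool.Agent.Helper87.HQ.St

/-!
# Project HQ (MP_1debac_an, Q2), module A3

A real irreducible variety on which `f` is not algebraic is, outside a proper subset, the graph of
the simple roots of a polynomial.
-/

set_option autoImplicit false

namespace Pool.Agent.Helper96.HQ

open Pool.Agent.Helper87.HQ
open Set MvPolynomial

private theorem ev2_mul {n : ℕ} {K : Type} [Field K] [Algebra ℝ K] (y : Fin n → K) (w : K)
    (g g' : Polynomial (MvPolynomial (Fin n) ℝ)) : ev2 y w (g * g') = ev2 y w g * ev2 y w g' := by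
  unfold ev2
  exact Polynomial.eval₂_mul _ _

private theorem ev2_sub {n : ℕ} {K : Type} [Field K] [Algebra ℝ K] (y : Fin n → K) (w : K)
    (g g' : Polynomial (MvPolynomial (Fin n) ℝ)) : ev2 y w (g - g') = ev2 y w g - ev2 y w g' := by
  unfold ev2
  exact Polynomial.eval₂_sub _

private theorem ev2_C {n : ℕ} {K : Type} [Field K] [Algebra ℝ K] (y : Fin n → K) (w : K)
    (r : MvPolynomial (Fin n) ℝ) : ev2 y w (Polynomial.C r) = aeval y r := by
  unfold ev2
  exact Polynomial.eval₂_C _ _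

private theorem ev2_dvd {n : ℕ} {K : Type} [Field K] [Algebra ℝ K] (y : Fin n → K) (w : K)
    (m g : Polynomial (MvPolynomial (Fin n) ℝ)) (h : m ∣ g) (h0 : ev2 y w m = 0) :
    ev2 y w g = 0 := by
  obtain ⟨k, rfl⟩ := h
  rw [ev2_mul, h0, zero_mul]

/-- **Module A3.** -/
theorem hA3 : StA3 := by
  intro hB1 hB2 hH1 hH2 σ _ P _ f hf
  let B := MvPolynomial σ ℝ ⧸ P
  let K := FractionRing B
  let ψ : MvPolynomial σ ℝ →ₐ[ℝ] K := (IsScalarTower.toAlgHom ℝ B K).comp (Ideal.Quotient.mkₐ ℝ P)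
  have hψ : ∀ p, ψ p = algebraMap B K (Ideal.Quotient.mk P p) := fun p => rfl
  have hinj : Function.Injective (algebraMap B K) := IsFractionRing.injective B K
  have hker : ∀ p, ψ p = 0 ↔ p ∈ P := by
    intro p
    rw [hψ, ← Ideal.Quotient.eq_zero_iff_mem]
    constructor
    · intro h
      exact hinj (by rw [h, map_zero])
    · intro h
      rw [h, map_zero]
  let x : σ → K := fun i => ψ (X i)
  have hx : ∀ p, aeval x p = ψ p := by
    intro p
    have h1 : (aeval x : MvPolynomial σ ℝ →ₐ[ℝ] K) = ψ := by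
      apply MvPolynomial.algHom_ext
      intro i
      simp [x]
    rw [h1]
  have hadj : ∀ p, ψ p ∈ Algebra.adjoin ℝ (range x) := by
    intro p
    rw [Algebra.adjoin_range_eq_range_aeval]
    exact ⟨p, hx p⟩
  have htop : IntermediateField.adjoin ℝ (range x) = ⊤ := by
    rw [eq_top_iff]
    intro k _
    obtain ⟨b', c', _, rfl⟩ := IsFractionRing.div_surjective (A := B) k
    obtain ⟨b, rfl⟩ := Ideal.Quotient.mk_surjective b'
    obtain ⟨c, rfl⟩ := Ideal.Quotient.mk_surjective c'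
    have h1 : ψ b ∈ IntermediateField.adjoin ℝ (range x) :=
      IntermediateField.algebra_adjoin_le_adjoin ℝ _ (hadj b)
    have h2 : ψ c ∈ IntermediateField.adjoin ℝ (range x) :=
      IntermediateField.algebra_adjoin_le_adjoin ℝ _ (hadj c)
    exact div_mem h1 h2
  have hft : Transcendental ℝ (ψ f) := by
    rw [hψ]
    exact (transcendental_algebraMap_iff hinj).2 hf
  obtain ⟨n, y', hy0, hya, htb⟩ := hB1 σ K x (ψ f) htop (hadj f) hft
  have hyy : ∀ i, ∃ p : MvPolynomial σ ℝ, ψ p = y' i := by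
    intro i
    have h1 := hya i
    rw [Algebra.adjoin_range_eq_range_aeval] at h1
    obtain ⟨p, hp⟩ := h1
    exact ⟨p, by rw [← hx]; exact hp⟩
  choose yy hyy using hyy
  let y : Fin (n + 1) → MvPolynomial σ ℝ := fun i => if i = 0 then f else yy i
  have hy : ∀ i, ψ (y i) = y' i := by
    intro i
    by_cases hi : i = 0
    · simp only [y, hi, if_true]
      exact hy0.symm
    · simp only [y, hi, if_false]
      exact hyy i
  have hyf : (fun i => ψ (y i)) = y' := funext hy
  obtain ⟨w, m, Δ, h, hm0, hm1, hΔ, hh, hdvd⟩ := hB2 σ K x (n + 1) y' htop htb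
  obtain ⟨b', c', hc', hw⟩ := IsFractionRing.div_surjective (A := B) w
  obtain ⟨b, rfl⟩ := Ideal.Quotient.mk_surjective b'
  obtain ⟨c, rfl⟩ := Ideal.Quotient.mk_surjective c'
  have hw' : ψ b / ψ c = w := hw
  have hc : ψ c ≠ 0 := by
    intro h0
    rw [hker, ← Ideal.Quotient.eq_zero_iff_mem] at h0
    rw [h0] at hc'
    exact zero_notMem_nonZeroDivisors hc'
  obtain ⟨N, a, ha⟩ := hH1 (MvPolynomial σ ℝ) (n + 1) y b c m
  obtain ⟨N', a', ha'⟩ := hH1 (MvPolynomial σ ℝ) (n + 1) y b c (Polynomial.derivative m)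
  have haP : a ∈ P := by
    rw [← hker, ha K ψ hc, hyf, hw', hm0, mul_zero]
  have ha'P : ψ a' ≠ 0 := by
    rw [ha' K ψ hc, hyf, hw']
    exact mul_ne_zero (pow_ne_zero _ hc) hm1
  have hΔP : ψ (aeval y Δ) ≠ 0 := by
    rw [MvPolynomial.comp_aeval_apply, hyf]
    exact hΔ
  refine ⟨n, y, b, c, c * a' * aeval y Δ, m, Δ, by simp [y], ?_, ?_, ?_⟩
  · rw [← hker, map_mul, map_mul]
    exact mul_ne_zero (mul_ne_zero hc ha'P) hΔP
  · intro z hz hδ
    rw [map_mul, map_mul] at hδ
    have hcz : eval z c ≠ 0 := fun h0 => hδ (by rw [h0, zero_mul, zero_mul])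
    have haz : eval z a' ≠ 0 := fun h0 => hδ (by rw [h0, mul_zero, zero_mul])
    have hΔz : eval z (aeval y Δ) ≠ 0 := fun h0 => hδ (by rw [h0, mul_zero])
    have e1 : ∀ p : MvPolynomial σ ℝ, (aeval z : MvPolynomial σ ℝ →ₐ[ℝ] ℝ) p = eval z p := by
      intro p
      rw [MvPolynomial.aeval_eq_eval]
    have e2 : (fun i => (aeval z : MvPolynomial σ ℝ →ₐ[ℝ] ℝ) (y i)) = fun i => eval z (y i) :=
      funext fun i => e1 (y i)
    have k1 := ha ℝ (aeval z) (by rw [e1]; exact hcz)
    have k2 := ha' ℝ (aeval z) (by rw [e1]; exact hcz)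
    rw [e2, e1, e1, e1] at k1 k2
    refine ⟨?_, ?_, ?_⟩
    · rw [hz a haP] at k1
      exact (mul_eq_zero.1 k1.symm).resolve_left (pow_ne_zero _ hcz)
    · intro h0
      rw [h0, mul_zero] at k2
      exact haz k2
    · intro h0
      apply hΔz
      rw [← e1, MvPolynomial.comp_aeval_apply, e2, MvPolynomial.aeval_eq_eval]
      exact h0
  · intro u w' hmu hΔu
    have e1 : ∀ (v : Fin (n + 1) → ℝ) (p : MvPolynomial (Fin (n + 1)) ℝ),
        (aeval v : MvPolynomial (Fin (n + 1)) ℝ →ₐ[ℝ] ℝ) p = eval v p := by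
      intro v p
      rw [MvPolynomial.aeval_eq_eval]
    have e2 : ∀ (v : σ → ℝ) (p : MvPolynomial σ ℝ),
        (aeval v : MvPolynomial σ ℝ →ₐ[ℝ] ℝ) p = eval v p := by
      intro v p
      rw [MvPolynomial.aeval_eq_eval]
    let z : σ → ℝ := fun i => ev2 u w' (h i) / eval u Δ
    have hz : ∀ i, ev2 u w' (h i) = aeval u Δ * z i := by
      intro i
      rw [e1]
      simp only [z]
      field_simp
    refine ⟨z, ?_, ?_⟩
    · intro p hp
      obtain ⟨M, q, hq⟩ := hH2 σ (n + 1) Δ h p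
      have k1 := hq K y' w x hh
      rw [hx, (hker p).2 hp, mul_zero] at k1
      have k2 := hq ℝ u w' z hz
      rw [ev2_dvd u w' m q (hdvd q k1) hmu, e1, e2] at k2
      exact (mul_eq_zero.1 k2.symm).resolve_left (pow_ne_zero _ hΔu)
    · obtain ⟨M, q, hq⟩ := hH2 σ (n + 1) Δ h f
      have k1 := hq K y' w x hh
      have k3 : ev2 y' w (q - Polynomial.C (Δ ^ M * X 0)) = 0 := by
        rw [ev2_sub, ev2_C, k1, hx, map_mul, map_pow, aeval_X, hy0, sub_self]
      have k4 := ev2_dvd u w' m _ (hdvd _ k3) hmu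
      rw [ev2_sub, ev2_C, hq ℝ u w' z hz, map_mul, map_pow, aeval_X, e1, e2] at k4
      have k5 : eval u Δ ^ M * (eval z f - u 0) = 0 := by
        rw [mul_sub]
        exact k4
      have k6 := (mul_eq_zero.1 k5).resolve_left (pow_ne_zero _ hΔu)
      linarith

end Pool.Agent.Helper96.HQ
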